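import Mathlib

/-!
# Project CQ (helper669, after helper658): quadrilaterals circumscribed about plane convex sets,
MP_b29168_gt. Statements of the parts.
-/

set_option autoImplicit false

namespace Pool.Agent.N669.CQ

open MeasureTheory Set

/-! ### Definitions -/

/-- the plane -/
abbrev P := ℝ × ℝ

/-- the cross product -/
def cr (u v : P) : ℝ := u.1 * v.2 - u.2 * v.1

/-- the midpoint -/
noncomputable def md (a b : P) : P := ((a.1 + b.1) / 2, (a.2 + b.2) / 2)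

/-- the area as a real number -/
noncomputable def vol (K : Set P) : ℝ := (volume K).toReal

/-- convex bodies -/
structure Bd (K : Set P) : Prop where
  conv : Convex ℝ K
  comp : IsCompact K
  int : (interior K).Nonempty

/-- `K` lies on the left of the line from `a` to `b` -/
def LF (K : Set P) (a b : P) : Prop := ∀ k ∈ K, 0 ≤ cr (b - a) (k - a)

/-- `a b c d` is a strictly convex quadrilateral, in the positive order -/
structure Tn (a b c d : P) : Prop where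
  ta : 0 < cr (a - d) (b - a)
  tb : 0 < cr (b - a) (c - b)
  tc : 0 < cr (c - b) (d - c)
  td : 0 < cr (d - c) (a - d)

/-- `K` lies on the left of the four edges -/
structure Lf (K : Set P) (a b c d : P) : Prop where
  ab : LF K a b
  bc : LF K b c
  cd : LF K c d
  da : LF K d a

/-- strictly convex quadrilaterals circumscribed about `K` -/
def Ci (K : Set P) (a b c d : P) : Prop := Tn a b c d ∧ Lf K a b c d

/-- the area of the quadrilateral `a b c d` -/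
noncomputable def ar (a b c d : P) : ℝ := cr (c - a) (d - b) / 2

/-- circumscribed quadrilaterals of minimal area -/
def Mi (K : Set P) (a b c d : P) : Prop :=
  Ci K a b c d ∧ ∀ a' b' c' d' : P, Ci K a' b' c' d' → ar a b c d ≤ ar a' b' c' d'

/-- the affine map `z ↦ o + z₁ u + z₂ v` -/
def af (o u v z : P) : P := o + z.1 • u + z.2 • v

/-- the standard triangle -/
def T0 : Set P := convexHull ℝ {((0 : ℝ), (0 : ℝ)), (1, 0), (0, 1)}

/-- the normal form: the side midpoints of a minimal quadrilateral are the corners of the unit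
square -/
structure NN (K : Set P) : Prop where
  bd : Bd K
  min : ∀ a b c d : P, Ci K a b c d → 2 ≤ ar a b c d
  vle : vol K ≤ √2
  c00 : ((0 : ℝ), (0 : ℝ)) ∈ K
  c10 : ((1 : ℝ), (0 : ℝ)) ∈ K
  c11 : ((1 : ℝ), (1 : ℝ)) ∈ K
  c01 : ((0 : ℝ), (1 : ℝ)) ∈ K
  out : ∀ z ∈ K, z.1 < 0 ∨ 1 < z.1 → 0 ≤ z.2 ∧ z.2 ≤ 1

/-- the octagon -/
def oct (x1 y2 x3 y4 h1 h2 h3 h4 : ℝ) : Set P :=
  convexHull ℝ {(0, 0), (1, 0), (1, 1), (0, 1), (x1, -h1), (1 + h2, y2), (x3, 1 + h3), (-h4, y4)}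

/-- the conditions on the parameters of the octagon -/
structure OP (x1 y2 x3 y4 h1 h2 h3 h4 : ℝ) : Prop where
  x1 : 0 ≤ x1 ∧ x1 ≤ 1
  y2 : 0 ≤ y2 ∧ y2 ≤ 1
  x3 : 0 ≤ x3 ∧ x3 ≤ 1
  y4 : 0 ≤ y4 ∧ y4 ≤ 1
  h1 : 0 ≤ h1
  h2 : 0 ≤ h2
  h3 : 0 ≤ h3
  h4 : 0 ≤ h4

/-! ### Statements -/

/-- TRI: the area of a triangle -/
def S_TRI : Prop := ∀ a b c : P,
  volume (convexHull ℝ {a, b, c}) = ENNReal.ofReal (|cr (b - a) (c - a)| / 2)

/-- HUL: a strictly convex quadrilateral as an intersection of half planes -/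
def S_HUL : Prop := ∀ a b c d x : P, Tn a b c d → 0 ≤ cr (b - a) (x - a) →
  0 ≤ cr (c - b) (x - b) → 0 ≤ cr (d - c) (x - c) → 0 ≤ cr (a - d) (x - d) →
  x ∈ convexHull ℝ {a, b, c} ∨ x ∈ convexHull ℝ {a, c, d}

/-- UPA: circumscribed quadrilaterals contain `K` and have area at most `ar` -/
def S_UPA : Prop := ∀ a b c d : P, Tn a b c d →
  (∀ K : Set P, Lf K a b c d → K ⊆ convexHull ℝ {a, b, c, d}) ∧
  volume (convexHull ℝ {a, b, c, d}) ≤ ENNReal.ofReal (ar a b c d)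

/-- AF1: affine maps, areas -/
def S_AF1 : Prop := ∀ o u v : P, 0 < cr u v → Function.Bijective (af o u v) ∧
  ∀ K : Set P, (Bd K → Bd (af o u v ⁻¹' K)) ∧ vol K = cr u v * vol (af o u v ⁻¹' K)

/-- AF2: affine maps, quadrilaterals -/
def S_AF2 : Prop := ∀ o u v : P, 0 < cr u v → ∀ (K : Set P) (a b c d : P),
  (Ci (af o u v ⁻¹' K) a b c d ↔ Ci K (af o u v a) (af o u v b) (af o u v c) (af o u v d)) ∧
  ar (af o u v a) (af o u v b) (af o u v c) (af o u v d) = cr u v * ar a b c d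

/-- PL: moving one side of a quadrilateral -/
def S_PL : Prop := ∀ a b c d : P, Tn a b c d → ∀ p q r : ℝ,
  (p * a.1 + q * a.2 + r) + (p * b.1 + q * b.2 + r) < 0 → ∃ s t ε l : ℝ, s < 1 ∧ t < 1 ∧ 0 < ε ∧
  0 < l ∧ Tn (a + s • (d - a)) (b + t • (c - b)) c d ∧
  ar (a + s • (d - a)) (b + t • (c - b)) c d < ar a b c d ∧
  ∀ x : P, cr ((b + t • (c - b)) - (a + s • (d - a))) (x - (a + s • (d - a))) =
    l * (cr (b - a) (x - a) + ε * (p * x.1 + q * x.2 + r))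

/-- MID: the midpoints of the sides of a minimal quadrilateral -/
def S_MID : Prop := ∀ K : Set P, Bd K → ∀ a b c d : P, Mi K a b c d →
  md a b ∈ K ∧ md b c ∈ K ∧ md c d ∈ K ∧ md d a ∈ K

/-- BDD: circumscribed quadrilaterals of bounded area are bounded -/
def S_BDD : Prop := ∀ K : Set P, Bd K → ∀ M : ℝ, ∃ R : ℝ, ∀ a b c d : P, Ci K a b c d →
  ar a b c d ≤ M → ‖a‖ ≤ R ∧ ‖b‖ ≤ R ∧ ‖c‖ ≤ R ∧ ‖d‖ ≤ R

/-- CUT: circumscribed triangles can be improved -/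
def S_CUT : Prop := ∀ K : Set P, Bd K → ∀ p q r : P, 0 < cr (q - p) (r - p) → LF K p q →
  LF K q r → LF K r p → vol K < cr (q - p) (r - p) / 2 →
  ∃ a b c d : P, Ci K a b c d ∧ ar a b c d < cr (q - p) (r - p) / 2

/-- DEG: degenerate limits of quadrilaterals are triangles -/
def S_DEG : Prop := ∀ (K : Set P) (a b c d : P), 0 ≤ cr (a - d) (b - a) →
  cr (b - a) (c - b) = 0 → 0 ≤ cr (c - b) (d - c) → 0 ≤ cr (d - c) (a - d) → Lf K a b c d →
  0 < ar a b c d → 0 < cr (c - a) (d - a) ∧ ar a b c d = cr (c - a) (d - a) / 2 ∧ LF K a c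

/-- BOX: circumscribed quadrilaterals exist; bodies have positive area -/
def S_BOX : Prop := ∀ K : Set P, Bd K → 0 < vol K ∧ ∃ a b c d : P, Ci K a b c d

/-- EX: existence of minimal quadrilaterals -/
def S_EX : Prop := ∀ K : Set P, Bd K → (∀ a b c d : P, Ci K a b c d → √2 * vol K ≤ ar a b c d) →
  ∃ a b c d : P, Mi K a b c d

/-- NF: the normal form -/
def S_NF : Prop := ∀ K : Set P, Bd K →
  (∀ a b c d : P, Ci K a b c d → √2 * vol K ≤ ar a b c d) → ∃ K' : Set P, NN K'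

/-- ROT: rotations of the normal form -/
def S_ROT : Prop := ∀ K : Set P, NN K → NN {z : P | (1 - z.2, z.1) ∈ K}

/-- ARE: the area of the octagon -/
def S_ARE : Prop := ∀ x1 y2 x3 y4 h1 h2 h3 h4 : ℝ, OP x1 y2 x3 y4 h1 h2 h3 h4 →
  1 + (h1 + h2 + h3 + h4) / 2 ≤ vol (oct x1 y2 x3 y4 h1 h2 h3 h4)

/-- STR: strict monotonicity of the area -/
def S_STR : Prop := ∀ K L : Set P, Bd K → IsClosed L → L ⊆ K → vol K ≤ vol L → K = L

/-- OCT: bodies in normal form are octagons -/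
def S_OCT : Prop := ∀ K : Set P, NN K → ∃ x1 y2 x3 y4 h1 h2 h3 h4 : ℝ,
  OP x1 y2 x3 y4 h1 h2 h3 h4 ∧ K = oct x1 y2 x3 y4 h1 h2 h3 h4 ∧ h1 + h3 = √2 - 1 ∧
    h2 + h4 = √2 - 1

/-- TIL: tilting a side of the rectangle -/
def S_TIL : Prop := ∀ x1 y2 x3 y4 h1 h2 h3 h4 : ℝ, OP x1 y2 x3 y4 h1 h2 h3 h4 →
  NN (oct x1 y2 x3 y4 h1 h2 h3 h4) → h1 + h3 = √2 - 1 → h2 + h4 = √2 - 1 → 0 < h2 → 0 < h3 → False

/-- A: the strict inequality for one body -/
def S_A : Prop := ∀ K : Set P, Bd K → ∃ a b c d : P, Ci K a b c d ∧ ar a b c d < √2 * vol K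

/-- LOC: the strict inequality near one body -/
def S_LOC : Prop := ∀ K : Set P, Bd K → T0 ⊆ K → ∃ δ : ℝ, 0 < δ ∧ ∃ c : ℝ, c < √2 ∧
  ∀ K' : Set P, Bd K' → T0 ⊆ K' → Metric.hausdorffDist K K' < δ →
    ∃ a b c' d : P, Ci K' a b c' d ∧ ar a b c' d ≤ c * vol K'

/-- CPT: one constant for the bodies between the standard triangle and a square -/
def S_CPT : Prop := ∃ c : ℝ, c < √2 ∧ ∀ K : Set P, Bd K → T0 ⊆ K →
  K ⊆ Icc ((-1 : ℝ), (-1 : ℝ)) (1, 1) → ∃ a b c' d : P, Ci K a b c' d ∧ ar a b c' d ≤ c * vol K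

/-- NRM: every body has an affine image between the standard triangle and a square -/
def S_NRM : Prop := ∀ K : Set P, Bd K → ∃ o u v : P, 0 < cr u v ∧ T0 ⊆ af o u v ⁻¹' K ∧
  af o u v ⁻¹' K ⊆ Icc ((-1 : ℝ), (-1 : ℝ)) (1, 1)

/-- BDC: closures of convex sets of area one -/
def S_BDC : Prop := ∀ K : Set P, Convex ℝ K → volume K = 1 →
  Bd (closure K) ∧ volume (closure K) = 1

/-- FIN -/
def S_FIN : Prop := ∃ c : ℝ, c < √2 ∧ ∀ K : Set (ℝ × ℝ), Convex ℝ K → volume K = 1 →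
  ∃ p q r s : ℝ × ℝ, K ⊆ convexHull ℝ {p, q, r, s} ∧
    volume (convexHull ℝ {p, q, r, s}) ≤ ENNReal.ofReal c

end Pool.Agent.N669.CQ
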